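import Pool.Agent.helper13.U4.SpecY

/-!
# Project U4 (MP_62ffdf_lc), row MAI
-/

set_option autoImplicit false

namespace Pool.Agent.U4

open Pool.Agent.UL

theorem MAI_par {k q h v : ℕ} (hP : Par k q h v) : 4 ≤ h ∧ h % 2 = 0 ∧ 15 * h ≤ v + 1 := by
  obtain ⟨hk, hh, hq, hv⟩ := hP
  obtain ⟨j, rfl⟩ := Nat.exists_eq_add_of_le hk
  have h1 : h = 4 * 2 ^ j := by
    rw [hh, pow_add]
    norm_num
  have h2 : 1 ≤ 2 ^ j := Nat.one_le_two_pow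
  have h3 : h * 7 ≤ h * q := Nat.mul_le_mul_left h hq
  have h4 : 2 * h * q = 2 * (h * q) := by ring
  refine ⟨by omega, by omega, ?_⟩
  rw [hv, h4]
  omega

theorem MAI (h1 : YST_stmt) (h2 : STC_stmt) (h3 : GRW_stmt) (h4 : ONA_stmt) (h5 : YVA_stmt)
    (h6 : EZR_stmt) (h7 : GEN_stmt) : MAI_stmt := by
  intro k q h v F ρ σ hP hF hFL hFH hKP hρ hσ
  by_contra hT
  obtain ⟨hh4, hh2, hv⟩ := MAI_par hP
  have hOne := h4 k q h v F ρ σ hP hF hρ hσ hT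
  obtain ⟨hY1, -, hY3⟩ := h5 k q h v F ρ σ hP hF
  have hYR := hY1 hρ
  obtain ⟨hYs, hYi⟩ := hY3 (by omega)
  obtain ⟨hSC, y02, y03⟩ := h1 k q h v (v - 1) (xF v F) (yF v F ((v : ℤ) * ρ + 2 * σ)) hP hFL hFH
    (by omega) (by omega) hOne hYs hYi
  have hSTC := h2 h (yF v F ((v : ℤ) * ρ + 2 * σ)) hh4 hh2 hSC
  have hTp : ∀ t, h + 2 ≤ t → t ≤ v - 1 → t % 2 = 1 → Tp (xF v F) (t - 1) 0 := by
    intro t ht1 ht2 ht3
    obtain ⟨u, rfl⟩ : ∃ u, t = u + 1 := ⟨t - 1, by omega⟩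
    rw [Nat.add_sub_cancel]
    refine ⟨hFL.r0 u (by omega), hFL.r0 (u + 1) (by omega), ?_, ?_⟩
    · exact hFL.r1 (u + 1) (by omega) ht3
    · exact hFL.r2 (u + 1) (by omega) (by omega) ht3
  have hG := h3 h v (v - 1) (v - 1) (xF v F) (yF v F ((v : ℤ) * ρ + 2 * σ)) hh4 (by omega)
    (by omega) hOne hYR le_rfl (Or.inr (by omega)) hTp
    (fun t ht1 ht2 ht3 => hKP t ht1 (by omega) ht3)
    (fun r hr => hSTC (h + 1) le_rfl r hr)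
  have hYR3 : YR (h + 3) (2 * h + 10) (yF v F ((v : ℤ) * ρ + 2 * σ)) :=
    fun t ht r hr => hYR t (by omega) r hr
  have hz3 : ∀ t ≤ h + 3, ∀ r ≤ 2 * t, yF v F ((v : ℤ) * ρ + 2 * σ) t r = false := by
    intro t ht r hr
    by_cases htt : t ≤ h + 1
    · exact hSTC t htt r hr
    · exact hG t (by omega) (by omega) r hr (by omega)
  have hnot : ¬(yF v F ((v : ℤ) * ρ + 2 * σ) (h + 3) (2 * h + 7) = true ∧
      yF v F ((v : ℤ) * ρ + 2 * σ) (h + 3) (2 * h + 8) = true) := by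
    rintro ⟨a1, a2⟩
    have o1 : Om h v (v - 1) (h + 3) (2 * h + 7) :=
      Or.inl ⟨by omega, by omega, Or.inr ⟨by omega, by omega⟩⟩
    have o2 : Om h v (v - 1) (h + 3) (2 * h + 8) :=
      Or.inl ⟨by omega, by omega, Or.inr ⟨by omega, by omega⟩⟩
    have := (hOne _ _ _ _ o1 o2 hFH.e7 a1 hFH.e8 a2).2
    omega
  obtain ⟨y01, y13⟩ := h6 h (yF v F ((v : ℤ) * ρ + 2 * σ)) hh2 hh4 hYR3 hz3 y02 hnot
  refine h7 k q h v F ρ σ hP hF hρ hσ ?_ y02 y03 y01 y13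
  intro t ht r hr1 hr2
  by_cases htt : t ≤ h + 1
  · exact hSTC t htt r hr1
  · exact hG t (by omega) (by omega) r hr1 hr2

end Pool.Agent.U4
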