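import Pool.Agent.helper13.U4.SpecD

/-!
# Project U4 (MP_62ffdf_lc), row PS
-/

set_option autoImplicit false

namespace Pool.Agent.U4

open Pool.Agent.UL

/-- two representations from two pairs of true cells in the rows `a`, `b` -/
theorem PS_mk {v : ℕ} {x : ℕ → ℕ → Bool} {ρ σ a b : ℕ} (t1 t2 t3 t4 : ℕ)
    (h1 : x t1 a = true) (h2 : x t2 b = true) (h3 : x t3 a = true) (h4 : x t4 b = true)
    (k1 : t1 < v) (k2 : t2 < v) (k3 : t3 < v) (k4 : t4 < v) (hab : a ≠ b) (h13 : t3 ≠ t1)
    (c1 : (a + b = ρ ∧ t1 + t2 = σ) ∨ (a + b + 2 = ρ ∧ t1 + t2 = σ + v))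
    (c2 : (a + b = ρ ∧ t3 + t4 = σ) ∨ (a + b + 2 = ρ ∧ t3 + t4 = σ + v)) :
    TwoW v x ρ σ :=
  ⟨a, t1, b, t2, a, t3, b, t4,
    ⟨h1, h2, k1, k2, fun h => hab h.1, c1⟩, ⟨h3, h4, k3, k4, fun h => hab h.1, c2⟩,
    fun h => h13 h.2, fun h => hab h.1⟩

theorem PS : PS_stmt := by
  intro k q h v x hP hL hH
  obtain ⟨hk, hh, hq, hv⟩ := hP
  obtain ⟨j, rfl⟩ := Nat.exists_eq_add_of_le hk
  have h1 : h = 4 * 2 ^ j := by
    rw [hh, pow_add]
    norm_num
  have h2 : 1 ≤ 2 ^ j := Nat.one_le_two_pow
  generalize 2 ^ j = j4 at h1 h2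
  have hm0 : ∃ m, m = h * q := ⟨_, rfl⟩
  obtain ⟨m, hm⟩ := hm0
  have h3 : 7 * h ≤ m := by
    rw [hm, mul_comm 7 h]
    exact Nat.mul_le_mul_left h hq
  have h4 : 2 * h * q = 2 * m := by rw [hm]; ring
  have hv' : v + 1 = 2 * m + h := by rw [hv, h4]
  have e1 : (2 * q - 1) * h = 2 * m - h := by
    rw [Nat.sub_mul, one_mul, hm]
    congr 1
    ring
  have e2 : 2 * q * h = 2 * m := by rw [hm]; ring
  have hh4 : 4 ≤ h := by omega
  have hmod : h % 4 = 0 := by omega
  -- the values
  have b3 : ∀ i, i < 4 → x (2 * h + i) (2 * h + 3) = true := fun i hi => hH.b3 i (by omega)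
  have b0 : ∀ i, 1 ≤ i → i ≤ 2 → x (2 * m - i) (2 * h) = true := by
    intro i hi1 hi2
    have := hH.b0 (2 * q - 1) (h - i) (by omega) (by omega) (by omega) (by rw [e1]; omega)
    rw [e1] at this
    have e : 2 * m - h + (h - i) = 2 * m - i := by omega
    rw [e] at this
    exact this
  have b4 : ∀ i, i ≤ 2 → x (2 * m + i) (2 * h + 4) = true := by
    intro i hi
    have := hH.b4 (2 * q) i (by omega) (by omega) (by omega) (by rw [e2]; omega)
    rw [e2] at this
    exact this
  have b4' : x (2 * m - 3) (2 * h + 4) = true := by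
    have := hH.b4' (2 * q - 1) (h - 3) (by omega) (by omega) (by omega) (by omega)
      (by rw [e1]; omega)
    rw [e1] at this
    have e : 2 * m - h + (h - 3) = 2 * m - 3 := by omega
    rw [e] at this
    exact this
  have b1 : ∀ d, d % 2 = 1 → d < 4 → x (h + d) (2 * h + 1) = true := by
    intro d hd hd4
    have := hH.b1 1 d (by omega) hd (by omega) (by omega)
    rw [one_mul] at this
    exact this
  have a4s : x (2 * h) (2 * h + 4) = true := hH.a4'' 0 (by omega) (by omega)
  have a4m : x (2 * h - 2) (2 * h + 4) = true := by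
    have := hH.a4' (h - 2) (by omega) (by omega)
    have e : h + (h - 2) = 2 * h - 2 := by omega
    rw [e] at this
    exact this
  have b5 : x (4 * h) (2 * h + 5) = true := by
    have := hH.b5 4 0 (by omega) (by omega) (by omega) (by omega) (by omega)
    exact this
  have b5' : ∀ i, 1 ≤ i → i ≤ 2 → x (4 * h - i) (2 * h + 5) = true := by
    intro i hi1 hi2
    have := hH.b5' 3 (h - i) (by omega) (by omega) (by omega) (by omega) (by omega)
    have e : 3 * h + (h - i) = 4 * h - i := by omega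
    rw [e] at this
    exact this
  have a0 : ∀ d, d % 2 = 1 → d < 4 → x (h + d) (2 * h) = true := fun d hd hd4 =>
    hH.a0 d (by omega) hd
  have a4' : ∀ d, d < 4 → d % 4 ≠ 1 → x (h + d) (2 * h + 4) = true := fun d hd hd4 =>
    hH.a4' d (by omega) hd4
  have a44 : x (h + 4) (2 * h + 4) = true := by
    by_cases hc : h = 4
    · have := a4s
      have e : 2 * h = h + 4 := by omega
      rw [e] at this
      rw [e]
      exact this
    · exact hH.a4' 4 (by omega) (by omega)
  refine ⟨?_, ?_⟩
  · intro σ hσ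
    rcases hσ with hσ | hσ | hσ
    · exact PS_mk (a := 2 * h + 3) (b := 2 * h) (2 * h + 1) (2 * m - 1) (2 * h + 2) (2 * m - 2)
        (b3 1 (by omega)) (b0 1 (by omega) (by omega)) (b3 2 (by omega)) (b0 2 (by omega) (by omega))
        (by omega) (by omega) (by omega) (by omega) (by omega) (by omega) (by omega) (by omega)
    · exact PS_mk (a := 2 * h + 1) (b := 2 * h + 4) (h + 1) (2 * h) (h + 3) (2 * h - 2)
        (b1 1 (by omega) (by omega)) a4s (b1 3 (by omega) (by omega)) a4m
        (by omega) (by omega) (by omega) (by omega) (by omega) (by omega) (by omega) (by omega)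
    · exact PS_mk (a := 2 * h) (b := 2 * h + 5) (h + 1) (4 * h) (h + 3) (4 * h - 2)
        (a0 1 (by omega) (by omega)) b5 (a0 3 (by omega) (by omega)) (b5' 2 (by omega) (by omega))
        (by omega) (by omega) (by omega) (by omega) (by omega) (by omega) (by omega) (by omega)
  · intro σ hσ
    rcases hσ with hσ | hσ | hσ | hσ | hσ | hσ
    · exact PS_mk (a := 2 * h + 3) (b := 2 * h + 4) (2 * h + 0) (2 * m + 0) (2 * h + 3) (2 * m - 3)
        (b3 0 (by omega)) (b4 0 (by omega)) (b3 3 (by omega)) b4'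
        (by omega) (by omega) (by omega) (by omega) (by omega) (by omega) (by omega) (by omega)
    · exact PS_mk (a := 2 * h + 6) (b := 2 * h + 3) (h + 1) (2 * h + 0) (h - 2) (2 * h + 3)
        hH.a6.2.1 (b3 0 (by omega)) hH.a6.1 (b3 3 (by omega))
        (by omega) (by omega) (by omega) (by omega) (by omega) (by omega) (by omega) (by omega)
    · exact PS_mk (a := 2 * h + 4) (b := 2 * h + 5) (h + 3) (4 * h - 2) (h + 2) (4 * h - 1)
        (a4' 3 (by omega) (by omega)) (b5' 2 (by omega) (by omega)) (a4' 2 (by omega) (by omega))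
        (b5' 1 (by omega) (by omega))
        (by omega) (by omega) (by omega) (by omega) (by omega) (by omega) (by omega) (by omega)
    · exact PS_mk (a := 2 * h + 3) (b := 2 * h + 4) (2 * h + 0) (2 * m + 2) (2 * h + 1) (2 * m + 1)
        (b3 0 (by omega)) (b4 2 (by omega)) (b3 1 (by omega)) (b4 1 (by omega))
        (by omega) (by omega) (by omega) (by omega) (by omega) (by omega) (by omega) (by omega)
    · exact PS_mk (a := 2 * h + 6) (b := 2 * h + 3) (h + 1) (2 * h + 2) (h + 2) (2 * h + 1)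
        hH.a6.2.1 (b3 2 (by omega)) hH.a6.2.2 (b3 1 (by omega))
        (by omega) (by omega) (by omega) (by omega) (by omega) (by omega) (by omega) (by omega)
    · exact PS_mk (a := 2 * h + 4) (b := 2 * h + 5) (h + 3) (4 * h) (h + 4) (4 * h - 1)
        (a4' 3 (by omega) (by omega)) b5 a44 (b5' 1 (by omega) (by omega))
        (by omega) (by omega) (by omega) (by omega) (by omega) (by omega) (by omega) (by omega)

end Pool.Agent.U4
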